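import Pool.Agent.Work.MP_2738db_nt_Y.Interface
import Pool.Agent.Work.MP_2738db_nt_U_helper93.Det

set_option autoImplicit false

namespace Pool.Agent.Work.MP_2738db_nt_Y.helper19

open Finset Polynomial
open Pool.Agent.Work.MP_2738db_nt_U.helper93 (binom_id det_sum_le)

/-- `∑ₘ (C(m,k) u^k (u-1)^(m-k)) C(z,m) = C(z,k) u^z` -/
lemma row_id (u : ℝ) (k z Z : ℕ) (hz : z ≤ Z) :
    ∑ m : Fin (Z + 1), ((Nat.choose m k : ℝ) * u ^ k * (u - 1) ^ ((m : ℕ) - k)) *
        (Nat.choose z m : ℝ) = (Nat.choose z k : ℝ) * u ^ z := by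
  have h2 := binom_id (u - 1) k z Z hz
  rw [add_sub_cancel] at h2
  have h4 : ∑ m : Fin (Z + 1), ((Nat.choose m k : ℝ) * u ^ k * (u - 1) ^ ((m : ℕ) - k)) *
      (Nat.choose z m : ℝ) = u ^ k * ∑ m : Fin (Z + 1),
        (Nat.choose z m : ℝ) * ((Nat.choose m k : ℝ) * (u - 1) ^ ((m : ℕ) - k)) := by
    rw [Finset.mul_sum]
    apply Finset.sum_congr rfl
    intro m _; ring
  rw [h4, h2]
  by_cases hk : k ≤ z
  · have h3 : u ^ z = u ^ k * u ^ (z - k) := by
      rw [← pow_add]; congr 1; omega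
    rw [h3]; ring
  · rw [Nat.choose_eq_zero_of_lt (by omega : z < k)]
    simp

lemma sum_succ_two (T : ℕ) : 2 * ∑ s ∈ range T, (s + 1) = T * (T + 1) := by
  induction T with
  | zero => simp
  | succ n ih => rw [Finset.sum_range_succ, mul_add, ih]; ring

/-- few rows of small weight -/
lemma small_card {ι : Type} [Fintype ι] [DecidableEq ι] (Z₁ Z₂ T : ℕ)
    (f : ι → (Fin (Z₁ + 1) × Fin (Z₂ + 1)) ⊕ ι) (hf : Function.Injective f)
    (wt : (Fin (Z₁ + 1) × Fin (Z₂ + 1)) ⊕ ι → ℕ)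
    (hwt : wt = Sum.elim (fun m => (m.1 : ℕ) + (m.2 : ℕ)) (fun _ => T)) :
    2 * (univ.filter (fun i => wt (f i) < T)).card ≤ T * (T + 1) := by
  classical
  rw [← sum_succ_two]
  apply Nat.mul_le_mul_left
  have h1 : (univ.filter (fun i => wt (f i) < T)).card
      ≤ ((range T).biUnion (fun s => Finset.HasAntidiagonal.antidiagonal s)).card := by
    apply Finset.card_le_card_of_injOn
      (fun i => Sum.elim (fun m : Fin (Z₁ + 1) × Fin (Z₂ + 1) => ((m.1 : ℕ), (m.2 : ℕ)))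
        (fun _ => (0, 0)) (f i))
    · intro i hi
      simp only [coe_filter, mem_univ, true_and, Set.mem_ofPred_eq] at hi
      simp only [coe_biUnion, Set.mem_iUnion, mem_coe]
      rw [hwt] at hi
      rcases hfi : f i with m | j
      · rw [hfi] at hi
        simp only [Sum.elim_inl] at hi ⊢
        exact ⟨(m.1 : ℕ) + (m.2 : ℕ), Finset.mem_range.mpr hi, by simp⟩
      · rw [hfi] at hi
        simp at hi
    · intro i hi j hj hij
      simp only [coe_filter, mem_univ, true_and, Set.mem_ofPred_eq] at hi hj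
      simp only at hij
      rw [hwt] at hi hj
      apply hf
      rcases hfi : f i with m | j1
      · rcases hfj : f j with m' | j2
        · rw [hfi, hfj] at hij
          simp only [Sum.elim_inl, Prod.mk.injEq] at hij
          congr 1
          exact Prod.ext (Fin.ext hij.1) (Fin.ext hij.2)
        · rw [hfj] at hj
          simp at hj
      · rw [hfi] at hi
        simp at hi
  refine h1.trans (Finset.card_biUnion_le.trans ?_)
  apply Finset.sum_le_sum
  intro s _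
  simp

/-- the sum of the weights of distinct rows -/
lemma weight_sum {ι : Type} [Fintype ι] [DecidableEq ι] (Z₁ Z₂ T : ℕ)
    (hT : T * (T + 1) ≤ Fintype.card ι)
    (f : ι → (Fin (Z₁ + 1) × Fin (Z₂ + 1)) ⊕ ι) (hf : Function.Injective f)
    (wt : (Fin (Z₁ + 1) × Fin (Z₂ + 1)) ⊕ ι → ℕ)
    (hwt : wt = Sum.elim (fun m => (m.1 : ℕ) + (m.2 : ℕ)) (fun _ => T)) :
    Fintype.card ι * T ≤ 2 * ∑ i, wt (f i) := by
  classical
  have h1 := small_card Z₁ Z₂ T f hf wt hwt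
  have h2 : (univ.filter (fun i => ¬ wt (f i) < T)).card * T ≤ ∑ i, wt (f i) := by
    rw [← Finset.sum_filter_add_sum_filter_not univ (fun i => ¬ wt (f i) < T)]
    have h3 : (univ.filter (fun i => ¬ wt (f i) < T)).card * T
        ≤ ∑ i ∈ univ.filter (fun i => ¬ wt (f i) < T), wt (f i) := by
      rw [← smul_eq_mul]
      apply Finset.card_nsmul_le_sum
      intro i hi
      rw [mem_filter] at hi
      exact not_lt.mp hi.2
    omega
  have h4 : (univ.filter (fun i => wt (f i) < T)).card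
      + (univ.filter (fun i => ¬ wt (f i) < T)).card = Fintype.card ι := by
    rw [Finset.card_filter_add_card_filter_not, Finset.card_univ]
  have h5 : Fintype.card ι ≤ 2 * (univ.filter (fun i => ¬ wt (f i) < T)).card := by omega
  calc Fintype.card ι * T ≤ (2 * (univ.filter (fun i => ¬ wt (f i) < T)).card) * T :=
        Nat.mul_le_mul_right _ h5
    _ = 2 * ((univ.filter (fun i => ¬ wt (f i) < T)).card * T) := by ring
    _ ≤ _ := Nat.mul_le_mul_left _ h2

theorem det : Stmt_Det := by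
  intro ι _ _ Z₁ Z₂ T G k₁ k₂ u₁ u₂ z₁ z₂ hz₁ hz₂ hu₁ hu₂ hT hV E β hE
  classical
  have hβ : ∀ i, 0 ≤ β i := fun i => (abs_nonneg _).trans (hE i i)
  have hv₁ : ∀ i, 0 ≤ u₁ i - 1 := fun i => by linarith [hu₁ i]
  have hw₁ : ∀ i, 0 ≤ u₁ i := fun i => by linarith [hu₁ i]
  have hv₂ : ∀ i, 0 ≤ u₂ i - 1 := fun i => by linarith [hu₂ i]
  have hw₂ : ∀ i, 0 ≤ u₂ i := fun i => by linarith [hu₂ i]
  obtain ⟨a, ha⟩ : ∃ a : ι → Fin (Z₁ + 1) × Fin (Z₂ + 1) → ℝ, a = fun i m =>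
      ((Nat.choose m.1 (k₁ i) : ℝ) * u₁ i ^ k₁ i * (u₁ i - 1) ^ ((m.1 : ℕ) - k₁ i)) *
      ((Nat.choose m.2 (k₂ i) : ℝ) * u₂ i ^ k₂ i * (u₂ i - 1) ^ ((m.2 : ℕ) - k₂ i)) := ⟨_, rfl⟩
  obtain ⟨b, hb⟩ : ∃ b : Fin (Z₁ + 1) × Fin (Z₂ + 1) → ι → ℝ, b = fun m j =>
      (Nat.choose (z₁ j) m.1 : ℝ) * (Nat.choose (z₂ j) m.2 : ℝ) := ⟨_, rfl⟩
  obtain ⟨B, hB⟩ : ∃ B : Fin (Z₁ + 1) × Fin (Z₂ + 1) → ℝ, B = fun m =>
      (Nat.choose Z₁ m.1 : ℝ) * (Nat.choose Z₂ m.2 : ℝ) := ⟨_, rfl⟩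
  obtain ⟨W, hW⟩ : ∃ W : ι → (Fin (Z₁ + 1) × Fin (Z₂ + 1)) ⊕ ι → ℝ, W = fun i s =>
      Sum.elim (fun m : Fin (Z₁ + 1) × Fin (Z₂ + 1) =>
        ((Nat.choose Z₁ m.1 : ℝ) * ((Nat.choose m.1 (k₁ i) : ℝ) *
          (2 * (u₁ i - 1)) ^ ((m.1 : ℕ) - k₁ i)) * u₁ i ^ (k₁ i)) *
        ((Nat.choose Z₂ m.2 : ℝ) * ((Nat.choose m.2 (k₂ i) : ℝ) *
          (2 * (u₂ i - 1)) ^ ((m.2 : ℕ) - k₂ i)) * u₂ i ^ (k₂ i)))
      (fun i' => if i = i' then 2 ^ T * β i' else 0) s := ⟨_, rfl⟩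
  have ha0 : ∀ i m, 0 ≤ a i m := by
    intro i m
    rw [ha]
    have := hv₁ i; have := hw₁ i; have := hv₂ i; have := hw₂ i
    positivity
  have hB0 : ∀ m, 0 ≤ B m := by
    intro m; rw [hB]; positivity
  have hW0 : ∀ i s, 0 ≤ W i s := by
    intro i s
    rw [hW]
    have := hv₁ i; have := hw₁ i; have := hv₂ i; have := hw₂ i
    rcases s with m | i'
    · simp only [Sum.elim_inl]
      positivity
    · have := hβ i'
      simp only [Sum.elim_inr]
      split_ifs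
      · positivity
      · norm_num
  have h1 : (Matrix.of fun i j => (Nat.choose (z₁ j) (k₁ i) : ℝ) * (Nat.choose (z₂ j) (k₂ i) : ℝ) *
        (u₁ i ^ (z₁ j) * u₂ i ^ (z₂ j)) + E i j)
      = Matrix.of fun i j => ∑ s : (Fin (Z₁ + 1) × Fin (Z₂ + 1)) ⊕ ι,
        (Sum.elim (a i) (fun i' => if i = i' then (1 : ℝ) else 0) s) *
          (Sum.elim b E s j) := by
    funext i j
    simp only [Matrix.of_apply, Fintype.sum_sum_type, Sum.elim_inl, Sum.elim_inr]
    have h5 : ∑ x, (if i = x then (1 : ℝ) else 0) * E x j = E i j := by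
      simp
    rw [h5]
    congr 1
    have h6 := row_id (u₁ i) (k₁ i) (z₁ j) Z₁ (hz₁ j)
    have h7 := row_id (u₂ i) (k₂ i) (z₂ j) Z₂ (hz₂ j)
    rw [Fintype.sum_prod_type]
    calc (Nat.choose (z₁ j) (k₁ i) : ℝ) * (Nat.choose (z₂ j) (k₂ i) : ℝ) *
          (u₁ i ^ (z₁ j) * u₂ i ^ (z₂ j))
        = ((Nat.choose (z₁ j) (k₁ i) : ℝ) * u₁ i ^ (z₁ j)) *
          ((Nat.choose (z₂ j) (k₂ i) : ℝ) * u₂ i ^ (z₂ j)) := by ring
      _ = _ := by
          rw [← h6, ← h7, Finset.sum_mul_sum]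
          apply Finset.sum_congr rfl
          intro m₁ _
          apply Finset.sum_congr rfl
          intro m₂ _
          rw [ha, hb]
          ring
  rw [h1]
  have key := det_sum_le (ι := ι) (σ := (Fin (Z₁ + 1) × Fin (Z₂ + 1)) ⊕ ι)
    (fun i s => Sum.elim (a i) (fun i' => if i = i' then (1 : ℝ) else 0) s)
    (fun s j => Sum.elim b E s j)
    (fun s => Sum.elim B β s)
    (fun i s => by
      rcases s with m | i'
      · exact ha0 i m
      · simp only [Sum.elim_inr]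
        split_ifs <;> norm_num)
    (fun s j => by
      rcases s with m | i'
      · simp only [Sum.elim_inl]
        rw [hb, hB, abs_of_nonneg (by positivity)]
        apply mul_le_mul
        · exact_mod_cast Nat.choose_le_choose _ (hz₁ j)
        · exact_mod_cast Nat.choose_le_choose _ (hz₂ j)
        · positivity
        · positivity
      · simp only [Sum.elim_inr]
        exact hE i' j)
    (fun f => ∏ i, W i (f i)) (2 ^ G)
    ?_ ?_ (by positivity)
  · refine key.trans ?_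
    apply mul_le_mul_of_nonneg_left _ (by positivity)
    have h2 : ∑ f : ι → (Fin (Z₁ + 1) × Fin (Z₂ + 1)) ⊕ ι, ∏ i, W i (f i)
        = ∏ i, ∑ s : (Fin (Z₁ + 1) × Fin (Z₂ + 1)) ⊕ ι, W i s := by
      rw [Finset.prod_univ_sum]
      apply Finset.sum_congr _ (fun _ _ => rfl)
      simp
    rw [h2]
    apply Finset.prod_le_prod
    · intro i _
      exact Finset.sum_nonneg fun s _ => hW0 i s
    · intro i _
      rw [Fintype.sum_sum_type, hW]
      simp only [Sum.elim_inl, Sum.elim_inr]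
      have h5 : ∑ x, (if i = x then 2 ^ T * β x else 0) = 2 ^ T * β i := by
        simp
      rw [h5]
      apply add_le_add _ le_rfl
      rw [Fintype.sum_prod_type]
      simp only
      rw [← Finset.sum_mul_sum, ← Finset.sum_mul, ← Finset.sum_mul,
        binom_id (2 * (u₁ i - 1)) (k₁ i) Z₁ Z₁ le_rfl, binom_id (2 * (u₂ i - 1)) (k₂ i) Z₂ Z₂ le_rfl]
      have h3 : ∀ (u : ℝ) (k Z : ℕ), 1 ≤ u →
          (Nat.choose Z k : ℝ) * (1 + 2 * (u - 1)) ^ (Z - k) * u ^ k ≤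
            (Nat.choose Z k : ℝ) * u ^ k * (1 + 2 * (u - 1)) ^ Z := by
        intro u k Z hu
        have h3 : (1 + 2 * (u - 1)) ^ (Z - k) ≤ (1 + 2 * (u - 1)) ^ Z :=
          pow_le_pow_right₀ (by linarith) (Nat.sub_le _ _)
        have h4 : 0 ≤ (Nat.choose Z k : ℝ) * u ^ k := by
          have : 0 ≤ u := by linarith
          positivity
        calc (Nat.choose Z k : ℝ) * (1 + 2 * (u - 1)) ^ (Z - k) * u ^ k
            = ((Nat.choose Z k : ℝ) * u ^ k) * (1 + 2 * (u - 1)) ^ (Z - k) := by ring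
          _ ≤ _ := mul_le_mul_of_nonneg_left h3 h4
      have h8 : ∀ (u : ℝ) (k Z : ℕ), 1 ≤ u →
          0 ≤ (Nat.choose Z k : ℝ) * (1 + 2 * (u - 1)) ^ (Z - k) * u ^ k := by
        intro u k Z hu
        have h9 : 0 ≤ u - 1 := by linarith
        have h10 : 0 ≤ u := by linarith
        positivity
      exact mul_le_mul (h3 _ _ _ (hu₁ i)) (h3 _ _ _ (hu₂ i)) (h8 _ _ _ (hu₂ i))
        ((h8 _ _ _ (hu₁ i)).trans (h3 _ _ _ (hu₁ i)))
  · intro f hf
    obtain ⟨wt, hwt⟩ : ∃ wt : (Fin (Z₁ + 1) × Fin (Z₂ + 1)) ⊕ ι → ℕ,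
        wt = Sum.elim (fun m => (m.1 : ℕ) + (m.2 : ℕ)) (fun _ => T) := ⟨_, rfl⟩
    have hsum : G ≤ ∑ i, (wt (f i) - (k₁ i + k₂ i)) := by
      have h5 := weight_sum Z₁ Z₂ T hT f hf wt hwt
      have h7 : ∑ i, wt (f i) ≤ ∑ i, (wt (f i) - (k₁ i + k₂ i)) + ∑ i, (k₁ i + k₂ i) := by
        rw [← Finset.sum_add_distrib]
        apply Finset.sum_le_sum
        intro i _; omega
      omega
    have h8 : (2 : ℝ) ^ G ≤ ∏ i, (2 : ℝ) ^ (wt (f i) - (k₁ i + k₂ i)) := by
      rw [Finset.prod_pow_eq_pow_sum]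
      exact pow_le_pow_right₀ (by norm_num) hsum
    have h9 : ∀ i (s : (Fin (Z₁ + 1) × Fin (Z₂ + 1)) ⊕ ι), 0 ≤
        Sum.elim (a i) (fun i' => if i = i' then (1 : ℝ) else 0) s * Sum.elim B β s := by
      intro i s
      rcases s with m | i'
      · exact mul_nonneg (ha0 i m) (hB0 m)
      · simp only [Sum.elim_inr]
        have := hβ i'
        split_ifs
        · positivity
        · norm_num
    refine (mul_le_mul_of_nonneg_left h8 (Finset.prod_nonneg fun i _ => h9 i (f i))).trans ?_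
    rw [← Finset.prod_mul_distrib]
    apply Finset.prod_le_prod
    · intro i _
      exact mul_nonneg (h9 i (f i)) (by positivity)
    · intro i _
      rw [hwt, hW]
      rcases f i with m | i'
      · simp only [Sum.elim_inl]
        have h10 : (2 : ℝ) ^ (((m.1 : ℕ) + (m.2 : ℕ)) - (k₁ i + k₂ i)) ≤
            2 ^ ((m.1 : ℕ) - k₁ i) * 2 ^ ((m.2 : ℕ) - k₂ i) := by
          rw [← pow_add]
          apply pow_le_pow_right₀ (by norm_num)
          omega
        refine (mul_le_mul_of_nonneg_left h10 (mul_nonneg (ha0 i m) (hB0 m))).trans (le_of_eq ?_)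
        rw [ha, hB]
        simp only
        rw [mul_pow, mul_pow]
        ring
      · simp only [Sum.elim_inr]
        split_ifs with h
        · have h10 : (2 : ℝ) ^ (T - (k₁ i + k₂ i)) ≤ 2 ^ T :=
            pow_le_pow_right₀ (by norm_num) (Nat.sub_le _ _)
          have := mul_le_mul_of_nonneg_left h10 (hβ i')
          linarith
        · simp
  · intro f
    exact Finset.prod_nonneg fun i _ => hW0 i (f i)

end Pool.Agent.Work.MP_2738db_nt_Y.helper19
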